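import Pool.Agent.H80.PK.FStmts

/-! # Board pkt, row EXI -/

set_option autoImplicit false

namespace Pool.PK

open MeasureTheory Filter Topology UniformSpace

section exi

variable {G : Type} [Group G] [TopologicalSpace G] [IsTopologicalGroup G] [MeasurableSpace G]
  [BorelSpace G] (μ : Measure G) [μ.IsHaarMeasure]

/-- a function in `C_c(G)` as an element of the algebra -/
def exiMk (f : G → ℂ) (h : InCc f) : CG μ := (⟨f, h⟩ : Cc G)

theorem exi_ex (f : G → ℂ) (h : InCc f) : ∃ F : CG μ, F.1 = f := ⟨exiMk μ f h, rfl⟩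

theorem exi_in (F : CG μ) : InCc F.1 := F.2

/-- the map to the unitization, on the algebra -/
noncomputable def exiJ (s : ASN (CG μ)) (f : CG μ) : Un (CP s) :=
  WithLp.toLp 1 (Unitization.inr (cp s f) : Unitization ℂ (CP s))

open Classical in
/-- the map to the unitization, on all functions -/
noncomputable def exiI (s : ASN (CG μ)) (f : G → ℂ) : Un (CP s) :=
  if h : InCc f then exiJ μ s (exiMk μ f h) else 0

theorem exiI_pos (s : ASN (CG μ)) (F : CG μ) : exiI μ s F.1 = exiJ μ s F := dif_pos (exi_in μ F)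

theorem exiJ_add (s : ASN (CG μ)) (f g : CG μ) : exiJ μ s (f + g) = exiJ μ s f + exiJ μ s g := by
  have h : cp s (f + g) = cp s f + cp s g := Completion.coe_add (α := SN s) f g
  unfold exiJ
  rw [h, Unitization.inr_add]
  rfl

theorem exiJ_smul (s : ASN (CG μ)) (c : ℂ) (f : CG μ) : exiJ μ s (c • f) = c • exiJ μ s f := by
  have h : cp s (c • f) = c • cp s f := Completion.coe_smul (X := SN s) c f
  unfold exiJ
  rw [h, Unitization.inr_smul]
  rfl

theorem exiJ_mul (s : ASN (CG μ)) (f g : CG μ) : exiJ μ s (f * g) = exiJ μ s f * exiJ μ s g := by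
  have h : cp s (f * g) = cp s f * cp s g := coe_mul' s f g
  unfold exiJ
  rw [h, Unitization.inr_mul]
  rfl

theorem exi_fst (s : ASN (CG μ)) (c : ℂ) (f : CG μ) :
    (WithLp.ofLp (algebraMap ℂ (Un (CP s)) c + exiJ μ s f)).fst = c := by
  change ((algebraMap ℂ (Unitization ℂ (CP s)) c) + Unitization.inr (cp s f)).fst = c
  rw [Unitization.fst_add, Unitization.fst_inr, add_zero]
  rfl

theorem exi_snd (s : ASN (CG μ)) (c : ℂ) (f : CG μ) :
    (WithLp.ofLp (algebraMap ℂ (Un (CP s)) c + exiJ μ s f)).snd = cp s f := by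
  change ((algebraMap ℂ (Unitization ℂ (CP s)) c) + Unitization.inr (cp s f)).snd = _
  rw [Unitization.snd_add, Unitization.snd_inr]
  change (0 : CP s) + cp s f = cp s f
  rw [zero_add]

end exi

/-- row EXI: the completion exists -/
theorem EXI : EXIStmt := by
  intro G _ _ _ _ _ _ _ μ _ N s hN
  refine ⟨exiI μ s, ?_, ?_, ?_, ?_, ?_, ?_⟩
  · intro f g hf hg
    obtain ⟨F, rfl⟩ := exi_ex μ f hf
    obtain ⟨F', rfl⟩ := exi_ex μ g hg
    have h := exiJ_add μ s F F'
    rw [← exiI_pos, ← exiI_pos, ← exiI_pos] at h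
    exact h
  · intro c f hf
    obtain ⟨F, rfl⟩ := exi_ex μ f hf
    have h := exiJ_smul μ s c F
    rw [← exiI_pos, ← exiI_pos] at h
    exact h
  · intro f g hf hg
    obtain ⟨F, rfl⟩ := exi_ex μ f hf
    obtain ⟨F', rfl⟩ := exi_ex μ g hg
    have h := exiJ_mul μ s F F'
    rw [← exiI_pos, ← exiI_pos, ← exiI_pos] at h
    exact h
  · intro c f hf
    obtain ⟨F, rfl⟩ := exi_ex μ f hf
    rw [exiI_pos, WithLp.unitization_norm_def, exi_fst, exi_snd, hN F]
    congr 1
    exact Completion.norm_coe (E := SN s) F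
  · intro c f hf
    obtain ⟨F, rfl⟩ := exi_ex μ f hf
    rw [exiI_pos, aug_apply, exi_fst]
  · intro a δ hδ
    obtain ⟨f, hf⟩ := (Completion.denseRange_coe (α := SN s)).exists_dist_lt (WithLp.ofLp a).snd hδ
    obtain ⟨F, hF⟩ : ∃ F : CG μ, cp s F = (f : Completion (SN s)) := ⟨f, rfl⟩
    rw [← hF] at hf
    refine ⟨(WithLp.ofLp a).fst, F.1, exi_in μ F, ?_⟩
    rw [exiI_pos, WithLp.unitization_norm_def]
    have e1 : (WithLp.ofLp (a - (algebraMap ℂ (Un (CP s)) (WithLp.ofLp a).fst + exiJ μ s F))).fst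
        = 0 := by
      have h := exi_fst μ s (WithLp.ofLp a).fst F
      change (WithLp.ofLp a).fst -
        (WithLp.ofLp (algebraMap ℂ (Un (CP s)) (WithLp.ofLp a).fst + exiJ μ s F)).fst = 0
      rw [h, sub_self]
    have e2 : (WithLp.ofLp (a - (algebraMap ℂ (Un (CP s)) (WithLp.ofLp a).fst + exiJ μ s F))).snd =
        (WithLp.ofLp a).snd - cp s F := by
      have h := exi_snd μ s (WithLp.ofLp a).fst F
      change (WithLp.ofLp a).snd -
        (WithLp.ofLp (algebraMap ℂ (Un (CP s)) (WithLp.ofLp a).fst + exiJ μ s F)).snd = _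
      rw [h]
    rw [e1, e2, norm_zero, zero_add, ← dist_eq_norm]
    exact hf

end Pool.PK
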